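import Pool.Agent.X268.SR.Ops

/-!
# Harmonic theory for the strata of a semistable degeneration
-/

set_option autoImplicit false
set_option linter.unusedSectionVars false

namespace Pool.Agent.X268.SR

open Module

universe u

section adj

variable {R R' : Type u} [CommRing R] [Algebra ℚ R] [Module.Finite ℚ R] [CommRing R'] [Algebra ℚ R']
  [Module.Finite ℚ R'] {n n' : ℕ} {gr : ℕ → Submodule ℚ R} {gr' : ℕ → Submodule ℚ R'}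
  {deg : R →ₗ[ℚ] ℚ} {deg' : R' →ₗ[ℚ] ℚ} {D : R} {D' : R'}

/-- The commutator with `Λ`, up to sign. -/
noncomputable def adjOp (h : IsLHR n gr deg D) (h' : IsLHR n' gr' deg' D') (s : ℕ)
    (S : R →ₗ[ℚ] R') : R →ₗ[ℚ] R' :=
  (-(-1) ^ s : ℚ) • (Lam h' ∘ₗ S - S ∘ₗ Lam h)

theorem adjOp_apply (h : IsLHR n gr deg D) (h' : IsLHR n' gr' deg' D') (s : ℕ)
    (S : R →ₗ[ℚ] R') (x : R) :
    adjOp h h' s S x = (-(-1) ^ s : ℚ) • (Lam h' (S x) - S (Lam h x)) := rfl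

theorem Star_adjOp (h : IsLHR n gr deg D) (h' : IsLHR n' gr' deg' D') (s : ℕ)
    (hn : n' + 1 = n + 2 * s) (S : R →ₗ[ℚ] R') (hS : ∀ r, ∀ x ∈ gr r, S x ∈ gr' (r + s))
    (hD : ∀ x, S (D * x) = D' * S x) (y : R) : Star h' (adjOp h h' s S y) = S (Star h y) := by
  have h1 := Star_op h h' s hn S hS hD (Star h y)
  rw [Star_Star] at h1
  rw [adjOp_apply, ← h1, Star_Star]

/-- The adjoint of an operator. -/
theorem adjOp_spec (h : IsLHR n gr deg D) (h' : IsLHR n' gr' deg' D') (s : ℕ)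
    (hn : n' + 1 = n + 2 * s) (S : R →ₗ[ℚ] R') (hS : ∀ r, ∀ x ∈ gr r, S x ∈ gr' (r + s))
    (hD : ∀ x, S (D * x) = D' * S x) (T : R' →ₗ[ℚ] R)
    (hadj : ∀ x y, deg (T x * y) = deg' (x * S y)) (x : R') (y : R) :
    ip h (T x) y = ip h' x (adjOp h h' s S y) := by
  unfold ip
  rw [Star_adjOp h h' s hn S hS hD, hadj]

end adj

variable {R₁ R₂ R₃ : Type u} [CommRing R₁] [Algebra ℚ R₁] [CommRing R₂] [Algebra ℚ R₂]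
  [CommRing R₃] [Algebra ℚ R₃]

variable [Module.Finite ℚ R₁] [Module.Finite ℚ R₂] [Module.Finite ℚ R₃] {k : ℕ}
  {gr₁ : ℕ → Submodule ℚ R₁} {deg₁ : R₁ →ₗ[ℚ] ℚ} {D₁ : R₁}
  {gr₂ : ℕ → Submodule ℚ R₂} {deg₂ : R₂ →ₗ[ℚ] ℚ} {D₂ : R₂}
  {gr₃ : ℕ → Submodule ℚ R₃} {deg₃ : R₃ →ₗ[ℚ] ℚ} {D₃ : R₃}
  {ρ₁ : R₁ →ₗ[ℚ] R₂} {ρ₂ : R₂ →ₗ[ℚ] R₃} {γ₁ : R₂ →ₗ[ℚ] R₁} {γ₂ : R₃ →ₗ[ℚ] R₂}
  (h₁ : IsLHR (k + 2) gr₁ deg₁ D₁) (h₂ : IsLHR (k + 1) gr₂ deg₂ D₂) (h₃ : IsLHR k gr₃ deg₃ D₃)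

/-- The Laplace operator on `R₁`. -/
noncomputable def Lap (ρ₁ : R₁ →ₗ[ℚ] R₂) (γ₁ : R₂ →ₗ[ℚ] R₁) : R₁ →ₗ[ℚ] R₁ :=
  adjOp h₂ h₁ 1 γ₁ ∘ₗ ρ₁ + γ₁ ∘ₗ adjOp h₁ h₂ 0 ρ₁

theorem Lap_apply (x : R₁) : Lap h₁ h₂ ρ₁ γ₁ x =
    adjOp h₂ h₁ 1 γ₁ (ρ₁ x) + γ₁ (adjOp h₁ h₂ 0 ρ₁ x) := rfl

section

variable (hS : IsStrata gr₁ deg₁ D₁ gr₂ deg₂ D₂ gr₃ deg₃ D₃ ρ₁ ρ₂ γ₁ γ₂)
include hS

/-- The adjoint of the restriction. -/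
theorem adj_restrict₁ (x : R₁) (y : R₂) : ip h₂ (ρ₁ x) y = ip h₁ x (adjOp h₂ h₁ 1 γ₁ y) :=
  adjOp_spec h₂ h₁ 1 (by omega) γ₁ hS.gysin_mem₁ hS.gysin_mul₁ ρ₁
    (fun x y => (hS.adjoint₁ x y).symm) x y

/-- The adjoint of the Gysin map. -/
theorem adj_gysin₁ (x : R₂) (y : R₁) : ip h₁ (γ₁ x) y = ip h₂ x (adjOp h₁ h₂ 0 ρ₁ y) :=
  adjOp_spec h₁ h₂ 0 (by omega) ρ₁ hS.restrict_mem₁ hS.restrict_mul₁ γ₁
    (fun x y => by rw [mul_comm, hS.adjoint₁, mul_comm]) x y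

/-- The adjoint of the second Gysin map. -/
theorem adj_gysin₂ (x : R₃) (y : R₂) : ip h₂ (γ₂ x) y = ip h₃ x (adjOp h₂ h₃ 0 ρ₂ y) :=
  adjOp_spec h₂ h₃ 0 (by omega) ρ₂ hS.restrict_mem₂ hS.restrict_mul₂ γ₂
    (fun x y => by rw [mul_comm, hS.adjoint₂, mul_comm]) x y

/-- The anticommutator of the restriction and the adjoint of the Gysin map. -/
theorem anti (x : R₁) : ρ₂ (adjOp h₁ h₂ 0 ρ₁ x) = -adjOp h₂ h₃ 0 ρ₂ (ρ₁ x) := by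
  rw [adjOp_apply, adjOp_apply, pow_zero, map_smul, map_sub, hS.restrict_restrict,
    hS.restrict_restrict, map_zero, sub_zero, zero_sub, smul_neg, neg_neg]

theorem Lap_mem {r : ℕ} {x : R₁} (hx : x ∈ gr₁ r) : Lap h₁ h₂ ρ₁ γ₁ x ∈ gr₁ r := by
  rw [Lap_apply, adjOp_apply, adjOp_apply]
  have e1 : Lam h₁ (γ₁ (ρ₁ x)) ∈ gr₁ r :=
    Lam_mem h₁ (hS.gysin_mem₁ r _ (hS.restrict_mem₁ r x hx))
  have e2 : γ₁ (Lam h₂ (ρ₁ x)) ∈ gr₁ r := by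
    rcases r with _ | r
    · rw [Lam_gr_zero h₂ (hS.restrict_mem₁ 0 x hx), map_zero]
      exact Submodule.zero_mem _
    · exact hS.gysin_mem₁ r _ (Lam_mem h₂ (hS.restrict_mem₁ _ x hx))
  have e3 : γ₁ (ρ₁ (Lam h₁ x)) ∈ gr₁ r := by
    rcases r with _ | r
    · rw [Lam_gr_zero h₁ hx, map_zero, map_zero]
      exact Submodule.zero_mem _
    · exact hS.gysin_mem₁ r _ (hS.restrict_mem₁ r _ (Lam_mem h₁ hx))
  refine Submodule.add_mem _ (Submodule.smul_mem _ _ (Submodule.sub_mem _ e1 e2)) ?_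
  rw [map_smul, map_sub]
  exact Submodule.smul_mem _ _ (Submodule.sub_mem _ e2 e3)

/-- The Laplace operator is symmetric. -/
theorem Lap_symm (x y : R₁) : ip h₁ (Lap h₁ h₂ ρ₁ γ₁ x) y = ip h₁ x (Lap h₁ h₂ ρ₁ γ₁ y) := by
  rw [Lap_apply, Lap_apply, ip_add_left, ip_add_right, adj_gysin₁ h₁ h₂ hS,
    ← adj_restrict₁ h₁ h₂ hS, ip_comm h₁ _ y, ← adj_restrict₁ h₁ h₂ hS, ip_comm h₂ (ρ₁ y),
    ip_comm h₁ x (γ₁ _), adj_gysin₁ h₁ h₂ hS, ip_comm h₂ (adjOp h₁ h₂ 0 ρ₁ y)]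

/-- Harmonic elements are closed and coclosed. -/
theorem harmonic {x : R₁} (hx : Lap h₁ h₂ ρ₁ γ₁ x = 0) : ρ₁ x = 0 ∧ adjOp h₁ h₂ 0 ρ₁ x = 0 := by
  have e1 : ip h₁ x (Lap h₁ h₂ ρ₁ γ₁ x) = 0 := by
    rw [hx]
    unfold ip
    rw [map_zero, mul_zero, map_zero]
  rw [Lap_apply, ip_add_right, ← adj_restrict₁ h₁ h₂ hS, ip_comm h₁ x (γ₁ _),
    adj_gysin₁ h₁ h₂ hS] at e1
  have e2 := ip_nonneg h₂ (ρ₁ x)
  have e3 := ip_nonneg h₂ (adjOp h₁ h₂ 0 ρ₁ x)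
  exact ⟨ip_eq_zero h₂ (by linarith), ip_eq_zero h₂ (by linarith)⟩

/-- The Laplace operator commutes with `D₁`. -/
theorem Lap_comm {r : ℕ} {x : R₁} (hx : x ∈ gr₁ r) :
    D₁ * Lap h₁ h₂ ρ₁ γ₁ x = Lap h₁ h₂ ρ₁ γ₁ (D₁ * x) := by
  have c1 := comm_Lam h₁ hx
  have c2 := comm_Lam h₂ (hS.restrict_mem₁ r x hx)
  have c3 := comm_Lam h₁ (hS.gysin_mem₁ r _ (hS.restrict_mem₁ r x hx))
  have e1 : ∀ y, Lap h₁ h₂ ρ₁ γ₁ y = Lam h₁ (γ₁ (ρ₁ y)) - (2 : ℚ) • γ₁ (Lam h₂ (ρ₁ y)) +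
      γ₁ (ρ₁ (Lam h₁ y)) := by
    intro y
    rw [Lap_apply, adjOp_apply, adjOp_apply, map_smul, map_sub, pow_zero, pow_one, neg_neg,
      one_smul, neg_one_smul, two_smul]
    abel
  have d1 := congrArg (fun z => γ₁ (ρ₁ z)) c1
  have d2 := congrArg γ₁ c2
  simp only [map_sub, map_smul, hS.restrict_mul₁, hS.gysin_mul₁] at d1 d2
  rw [e1, e1, hS.restrict_mul₁, hS.gysin_mul₁, mul_add, mul_sub, mul_smul_comm]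
  rw [← sub_eq_zero]
  have h4 : D₁ * Lam h₁ (γ₁ (ρ₁ x)) - (2 : ℚ) • (D₁ * γ₁ (Lam h₂ (ρ₁ x))) +
      D₁ * γ₁ (ρ₁ (Lam h₁ x)) - (Lam h₁ (D₁ * γ₁ (ρ₁ x)) - (2 : ℚ) • γ₁ (Lam h₂ (D₂ * ρ₁ x)) +
      γ₁ (ρ₁ (Lam h₁ (D₁ * x)))) =
      (D₁ * Lam h₁ (γ₁ (ρ₁ x)) - Lam h₁ (D₁ * γ₁ (ρ₁ x))) -
      (2 : ℚ) • (D₁ * γ₁ (Lam h₂ (ρ₁ x)) - γ₁ (Lam h₂ (D₂ * ρ₁ x))) +
      (D₁ * γ₁ (ρ₁ (Lam h₁ x)) - γ₁ (ρ₁ (Lam h₁ (D₁ * x)))) := by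
    rw [smul_sub]
    abel
  rw [h4, c3, d2, d1, smul_smul, ← sub_smul, ← add_smul]
  have h5 : (2 * ((r + 1 : ℕ) : ℚ) - ((k + 2 : ℕ) : ℚ)) - 2 * (2 * (r : ℚ) - ((k + 1 : ℕ) : ℚ)) +
      (2 * (r : ℚ) - ((k + 2 : ℕ) : ℚ)) = 0 := by
    push_cast
    ring
  rw [h5, zero_smul]

theorem Lap_pow {r : ℕ} {x : R₁} (hx : x ∈ gr₁ r) (h0 : Lap h₁ h₂ ρ₁ γ₁ x = 0) (b : ℕ) :
    Lap h₁ h₂ ρ₁ γ₁ (D₁ ^ b * x) = 0 := by
  induction b with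
  | zero => rw [pow_zero, one_mul, h0]
  | succ b ih =>
    rw [pow_succ', mul_assoc, ← Lap_comm h₁ h₂ hS (h₁.ring.pow_mul_mem b hx), ih, mul_zero]

/-- The decomposition of the elements of degree `r`. -/
theorem exists_lap {r : ℕ} {x : R₁} (hx : x ∈ gr₁ r) : ∃ y ∈ gr₁ r, ∃ g ∈ gr₁ r,
    Lap h₁ h₂ ρ₁ γ₁ y = 0 ∧ x = y + Lap h₁ h₂ ρ₁ γ₁ g := by
  let f : gr₁ r →ₗ[ℚ] gr₁ r := (Lap h₁ h₂ ρ₁ γ₁).restrict fun x hx => Lap_mem h₁ h₂ hS hx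
  have hdisj : Disjoint (LinearMap.ker f) (LinearMap.range f) := by
    rw [Submodule.disjoint_def]
    rintro y hy ⟨g, hg⟩
    have h1 : Lap h₁ h₂ ρ₁ γ₁ (y : R₁) = 0 := congrArg Subtype.val (LinearMap.mem_ker.1 hy)
    have h2 : Lap h₁ h₂ ρ₁ γ₁ (g : R₁) = y := congrArg Subtype.val hg
    have h3 : ip h₁ (y : R₁) (y : R₁) = 0 := by
      conv_lhs => rw [← h2]
      rw [Lap_symm h₁ h₂ hS, h2, h1]
      unfold ip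
      rw [map_zero, mul_zero, map_zero]
    exact Subtype.ext (ip_eq_zero h₁ h3)
  have htop : LinearMap.ker f ⊔ LinearMap.range f = ⊤ := by
    refine Submodule.eq_top_of_disjoint _ _ ?_ hdisj
    rw [add_comm, LinearMap.finrank_range_add_finrank_ker]
  have h1 : (⟨x, hx⟩ : gr₁ r) ∈ LinearMap.ker f ⊔ LinearMap.range f := by
    rw [htop]
    trivial
  obtain ⟨y, hy, z, ⟨g, hg⟩, hyz⟩ := Submodule.mem_sup.1 h1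
  refine ⟨y, y.2, g, g.2, congrArg Subtype.val (LinearMap.mem_ker.1 hy), ?_⟩
  have h2 := congrArg Subtype.val hyz
  have h3 : Lap h₁ h₂ ρ₁ γ₁ (g : R₁) = z := congrArg Subtype.val hg
  rw [h3]
  exact h2.symm

include h₁ h₂ h₃ in
/-- **The harmonic representative of a closed element.** -/
theorem exists_harmonic {r : ℕ} {x : R₁} (hx : x ∈ gr₁ r) (hρ : ρ₁ x = 0) :
    ∃ y ∈ gr₁ r, ∃ u : R₂, Lap h₁ h₂ ρ₁ γ₁ y = 0 ∧ ρ₂ u = 0 ∧ x = y + γ₁ u := by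
  obtain ⟨y, hy, g, hg, hy0, he⟩ := exists_lap h₁ h₂ hS hx
  have hyρ := (harmonic h₁ h₂ hS hy0).1
  set a := ρ₁ g with ha
  set u := adjOp h₁ h₂ 0 ρ₁ g with hu
  have he' : x = y + (adjOp h₂ h₁ 1 γ₁ a + γ₁ u) := he
  have e1 : ρ₁ (adjOp h₂ h₁ 1 γ₁ a) = -ρ₁ (γ₁ u) := by
    have h4 := congrArg ρ₁ he'
    rw [hρ, map_add, map_add, hyρ, zero_add] at h4
    exact eq_neg_of_add_eq_zero_left h4.symm
  have e2 : ρ₂ u = -adjOp h₂ h₃ 0 ρ₂ a := anti h₁ h₂ h₃ hS g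
  have e3 : ρ₁ (γ₁ u) = -γ₂ (ρ₂ u) := eq_neg_of_add_eq_zero_left (hS.restrict_gysin u)
  have neg_left : ∀ {R : Type u} [CommRing R] [Algebra ℚ R] [Module.Finite ℚ R] {n : ℕ}
      {gr : ℕ → Submodule ℚ R} {deg : R →ₗ[ℚ] ℚ} {D : R} (h : IsLHR n gr deg D) (x y : R),
      ip h (-x) y = -ip h x y := by
    intro R _ _ _ n gr deg D h x y
    unfold ip
    rw [neg_mul, map_neg]
  have e4 : ip h₁ (adjOp h₂ h₁ 1 γ₁ a) (adjOp h₂ h₁ 1 γ₁ a) =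
      -ip h₃ (adjOp h₂ h₃ 0 ρ₂ a) (adjOp h₂ h₃ 0 ρ₂ a) := by
    rw [← adj_restrict₁ h₁ h₂ hS, e1, e3, neg_neg, adj_gysin₂ h₂ h₃ hS, e2, neg_left]
  have e5 := ip_nonneg h₁ (adjOp h₂ h₁ 1 γ₁ a)
  have e6 := ip_nonneg h₃ (adjOp h₂ h₃ 0 ρ₂ a)
  have e7 : adjOp h₂ h₁ 1 γ₁ a = 0 := ip_eq_zero h₁ (by linarith)
  have e8 : adjOp h₂ h₃ 0 ρ₂ a = 0 := ip_eq_zero h₃ (by linarith)
  refine ⟨y, hy, u, hy0, ?_, ?_⟩
  · rw [e2, e8, neg_zero]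
  · rw [he', e7, zero_add]

/-- The star operator maps harmonic elements to closed elements. -/
theorem closed_star {x : R₁} (hx : Lap h₁ h₂ ρ₁ γ₁ x = 0) : ρ₁ (Star h₁ x) = 0 := by
  have h4 := Star_adjOp h₁ h₂ 0 (by omega) ρ₁ hS.restrict_mem₁ hS.restrict_mul₁ x
  rw [(harmonic h₁ h₂ hS hx).2, map_zero] at h4
  exact h4.symm

include h₁ h₂ h₃ in
/-- **The Hodge index theorem for closed elements.** Let `x` be a closed element of degree `r`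
such that `D₁ ^ (m + 1) * x` is orthogonal to all closed elements. Then `(-1)^r deg (x * x * D₁ ^ m)` is
positive, unless `x` is exact. -/
theorem closed_pos {r m : ℕ} (hrm : 2 * r + m = k + 2) {x : R₁} (hx : x ∈ gr₁ r) (hρ : ρ₁ x = 0)
    (hprim : ∀ y, ρ₁ y = 0 → deg₁ (D₁ ^ (m + 1) * x * y) = 0) :
    (∃ u, ρ₂ u = 0 ∧ x = γ₁ u) ∨ 0 < (-1) ^ r * deg₁ (x * x * D₁ ^ m) := by
  obtain ⟨y, hy, u, hy0, hu, he⟩ := exists_harmonic h₁ h₂ h₃ hS hx hρ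
  by_cases hyz : y = 0
  · left
    refine ⟨u, hu, ?_⟩
    rw [he, hyz, zero_add]
  · right
    have hmulγ : ∀ b z, γ₁ (D₂ ^ b * z) = D₁ ^ b * γ₁ z := by
      intro b z
      induction b with
      | zero => simp
      | succ b ih => rw [pow_succ', mul_assoc, hS.gysin_mul₁, ih, pow_succ', mul_assoc]
    have hmulρ : ∀ b z, ρ₁ (D₁ ^ b * z) = D₂ ^ b * ρ₁ z := by
      intro b z
      induction b with
      | zero => simp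
      | succ b ih => rw [pow_succ', mul_assoc, hS.restrict_mul₁, ih, pow_succ', mul_assoc]
    have hyρ := (harmonic h₁ h₂ hS hy0).1
    set w := D₁ ^ (m + 1) * y with hw
    have hw0 : Lap h₁ h₂ ρ₁ γ₁ w = 0 := Lap_pow h₁ h₂ hS hy hy0 (m + 1)
    have hstar := closed_star h₁ h₂ hS hw0
    have h5 := hprim _ hstar
    have h6 : D₁ ^ (m + 1) * x * Star h₁ w = w * Star h₁ w + Star h₁ w * γ₁ (D₂ ^ (m + 1) * u) := by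
      rw [hmulγ, he]
      ring
    rw [h6, map_add, hS.adjoint₁, hstar, zero_mul, map_zero, add_zero] at h5
    have hwz : w = 0 := ip_eq_zero h₁ h5
    have hpos := h₁.pos (x := y) ⟨hy, hrm, hwz⟩ hyz
    have h7 : x * x * D₁ ^ m = y * y * D₁ ^ m + (2 : ℚ) • ((D₁ ^ m * y) * γ₁ u) +
        (D₁ ^ m * γ₁ u) * γ₁ u := by
      rw [he, two_smul]
      ring
    have h8 : deg₁ ((D₁ ^ m * y) * γ₁ u) = 0 := by
      rw [hS.adjoint₁, hmulρ, hyρ, mul_zero, zero_mul, map_zero]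
    have h9 : deg₁ ((D₁ ^ m * γ₁ u) * γ₁ u) = 0 := by
      have h10 : ρ₁ (γ₁ u) = 0 := by
        have h11 := hS.restrict_gysin u
        rw [hu, map_zero, add_zero] at h11
        exact h11
      rw [hS.adjoint₁, hmulρ, h10, mul_zero, zero_mul, map_zero]
    rw [h7, map_add, map_add, map_smul, h8, h9, smul_zero, add_zero, add_zero]
    exact hpos

end

end Pool.Agent.X268.SR
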