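import Pool.Agent.X268.SR.Stm

/-!
# Lefschetz decomposition and the star operator for rings satisfying the Lefschetz and Hodge type
# conditions
-/

set_option autoImplicit false

namespace Pool.Agent.X268.SR

open Module

universe u v

variable {R : Type u} [CommRing R] [Algebra ℚ R] {n : ℕ} {gr : ℕ → Submodule ℚ R}
  {deg : R →ₗ[ℚ] ℚ} {D : R}

/-- Primitive elements. -/
structure Prim (n : ℕ) (gr : ℕ → Submodule ℚ R) (D : R) (j m : ℕ) (x : R) : Prop where
  mem : x ∈ gr j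
  dim : 2 * j + m = n
  prim : D ^ (m + 1) * x = 0

theorem IsGradedRing.pow_mul_mem (h : IsGradedRing n gr deg D) (b : ℕ) {j : ℕ} {x : R}
    (hx : x ∈ gr j) : D ^ b * x ∈ gr (j + b) := by
  induction b with
  | zero => simpa using hx
  | succ b ih =>
    rw [pow_succ', mul_assoc, show j + (b + 1) = 1 + (j + b) by omega]
    exact h.mul_mem h.divisor ih

theorem Prim.pow_eq_zero {j m : ℕ} {x : R} (hx : Prim n gr D j m x) {b : ℕ} (hb : m < b) :
    D ^ b * x = 0 := by
  obtain ⟨c, rfl⟩ := Nat.exists_eq_add_of_lt hb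
  rw [show m + c + 1 = c + (m + 1) by omega, pow_add, mul_assoc, hx.prim, mul_zero]

theorem IsLHR.pos (h : IsLHR n gr deg D) {j m : ℕ} {x : R} (hx : Prim n gr D j m x) (h0 : x ≠ 0) :
    0 < (-1) ^ j * deg (x * x * D ^ m) := by
  have h1 := hx.dim
  have h2 : n - 2 * j = m := by omega
  have h3 := h.hodge j (by omega) x hx.mem (by rw [h2]; exact hx.prim) h0
  rwa [h2] at h3

/-- The decomposition of an element killed by `D ^ (m + 1)` where `n + 1 = 2 r + m`. -/
theorem IsLHR.decomp (h : IsLHR n gr deg D) {r m : ℕ} (hr : n + 1 = 2 * r + m) {y : R}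
    (hy : y ∈ gr r) (h0 : D ^ (m + 1) * y = 0) :
    ∃ y0 y1, y = y0 + D * y1 ∧ y0 ∈ gr r ∧ D ^ m * y0 = 0 ∧
      ((r = 0 ∧ y1 = 0) ∨ ∃ r', r = r' + 1 ∧ Prim n gr D r' (m + 1) y1) := by
  rcases Nat.eq_zero_or_pos r with rfl | hpos
  · refine ⟨y, 0, by simp, hy, ?_, Or.inl ⟨rfl, rfl⟩⟩
    refine h.ring.bound (i := 0 + m) (by omega) (h.ring.pow_mul_mem m hy)
  · obtain ⟨r', rfl⟩ : ∃ r', r = r' + 1 := ⟨r - 1, by omega⟩
    obtain ⟨z, hz, he⟩ := h.lef r' (by omega) (D ^ m * y) (by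
      have := h.ring.pow_mul_mem m hy
      rwa [show r' + 1 + m = n - r' by omega] at this)
    rw [show n - 2 * r' = m + 1 by omega] at he
    refine ⟨y - D * z, z, by ring, ?_, ?_, Or.inr ⟨r', rfl, ⟨hz, by omega, ?_⟩⟩⟩
    · refine Submodule.sub_mem _ hy ?_
      have := h.ring.mul_mem h.ring.divisor hz
      rwa [add_comm] at this
    · rw [mul_sub, ← he]
      ring
    · rw [show m + 1 + 1 = 1 + (m + 1) by omega, pow_add, mul_assoc, he, ← mul_assoc, ← pow_add,
        add_comm 1 m]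
      exact h0

/-- The span of the elements `D ^ b * x` with `x` primitive. -/
def SP (n : ℕ) (gr : ℕ → Submodule ℚ R) (D : R) (r : ℕ) : Submodule ℚ R :=
  Submodule.span ℚ {y | ∃ j m b x, Prim n gr D j m x ∧ b ≤ m ∧ j + b = r ∧ y = D ^ b * x}

theorem SP_mul {r : ℕ} {y : R} (hy : y ∈ SP n gr D r) : D * y ∈ SP n gr D (r + 1) := by
  unfold SP at hy
  induction hy using Submodule.span_induction with
  | mem y hy =>
    obtain ⟨j, m, b, x, hx, hb, hr, rfl⟩ := hy
    rcases Nat.lt_or_ge b m with hlt | hge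
    · refine Submodule.subset_span ⟨j, m, b + 1, x, hx, hlt, by omega, ?_⟩
      ring
    · have hbm : b = m := le_antisymm hb hge
      subst hbm
      rw [← mul_assoc, ← pow_succ', hx.prim]
      exact Submodule.zero_mem _
  | zero => rw [mul_zero]; exact Submodule.zero_mem _
  | add a b _ _ ha hb => rw [mul_add]; exact Submodule.add_mem _ ha hb
  | smul c a _ ha => rw [mul_smul_comm]; exact Submodule.smul_mem _ _ ha

theorem SP_pow {r : ℕ} (c : ℕ) {y : R} (hy : y ∈ SP n gr D r) : D ^ c * y ∈ SP n gr D (r + c) := by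
  induction c with
  | zero => simpa using hy
  | succ c ih =>
    rw [pow_succ', mul_assoc]
    exact SP_mul ih

theorem IsLHR.gr_le (h : IsLHR n gr deg D) (r : ℕ) : gr r ≤ SP n gr D r := by
  have h1 : ∀ r, 2 * r ≤ n → gr r ≤ SP n gr D r := by
    intro r
    induction r with
    | zero =>
      intro _ x hx
      refine Submodule.subset_span ⟨0, n, 0, x, ⟨hx, by omega, ?_⟩, Nat.zero_le _, rfl, by simp⟩
      exact h.ring.bound (i := 0 + (n + 1)) (by omega) (h.ring.pow_mul_mem (n + 1) hx)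
    | succ r ih =>
      intro hr x hx
      obtain ⟨m, hm⟩ : ∃ m, n = 2 * (r + 1) + m := ⟨n - 2 * (r + 1), by omega⟩
      obtain ⟨z, hz, he⟩ := h.lef r (by omega) (D ^ (m + 1) * x) (by
        have := h.ring.pow_mul_mem (m + 1) hx
        rwa [show r + 1 + (m + 1) = n - r by omega] at this)
      rw [show n - 2 * r = m + 1 + 1 by omega] at he
      have h2 : x = (x - D * z) + D * z := by ring
      rw [h2]
      refine Submodule.add_mem _ ?_ (SP_mul (ih (by omega) hz))
      refine Submodule.subset_span ⟨r + 1, m, 0, x - D * z, ⟨?_, by omega, ?_⟩, Nat.zero_le _, rfl,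
        by simp⟩
      · refine Submodule.sub_mem _ hx ?_
        have := h.ring.mul_mem h.ring.divisor hz
        rwa [add_comm] at this
      · rw [mul_sub, ← he]
        ring
  by_cases hr : 2 * r ≤ n
  · exact h1 r hr
  · intro x hx
    by_cases hrn : r ≤ n
    · obtain ⟨z, hz, he⟩ := h.lef (n - r) (by omega) x (by rwa [show n - (n - r) = r by omega])
      have h2 := SP_pow (n - 2 * (n - r)) (h1 (n - r) (by omega) hz)
      rw [he, show n - r + (n - 2 * (n - r)) = r by omega] at h2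
      exact h2
    · rw [h.ring.bound (by omega) hx]
      exact Submodule.zero_mem _

/-- Orthogonality. -/
theorem IsLHR.orth (h : IsLHR n gr deg D) {j m j' m' b b' : ℕ} {x x' : R}
    (hx : Prim n gr D j m x) (hx' : Prim n gr D j' m' x') (hne : ¬ (j = j' ∧ b + b' = m)) :
    deg (D ^ b * x * (D ^ b' * x')) = 0 := by
  have h1 := hx.dim
  have h2 := hx'.dim
  by_cases hn : j + b + (j' + b') = n
  · rcases lt_trichotomy j j' with hlt | heq | hgt
    · have h3 : D ^ b * x * (D ^ b' * x') = x * (D ^ (b + b') * x') := by ring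
      rw [h3, hx'.pow_eq_zero (by omega), mul_zero, map_zero]
    · exact absurd ⟨heq, by omega⟩ hne
    · have h3 : D ^ b * x * (D ^ b' * x') = x' * (D ^ (b + b') * x) := by ring
      rw [h3, hx.pow_eq_zero (by omega), mul_zero, map_zero]
  · exact h.ring.degree _ hn _ (h.ring.mul_mem (h.ring.pow_mul_mem b hx.mem)
      (h.ring.pow_mul_mem b' hx'.mem))

/-! ### The spaces of primitive elements -/

/-- The space of primitive elements. -/
def PP (n : ℕ) (gr : ℕ → Submodule ℚ R) (D : R) (j : ℕ) : Submodule ℚ R where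
  carrier := {x | x ∈ gr j ∧ D ^ (n - 2 * j + 1) * x = 0}
  add_mem' := by
    rintro a b ⟨ha, ha'⟩ ⟨hb, hb'⟩
    exact ⟨Submodule.add_mem _ ha hb, by rw [mul_add, ha', hb', add_zero]⟩
  zero_mem' := ⟨Submodule.zero_mem _, mul_zero _⟩
  smul_mem' := by
    rintro c a ⟨ha, ha'⟩
    exact ⟨Submodule.smul_mem _ _ ha, by rw [mul_smul_comm, ha', smul_zero]⟩

theorem mem_PP {j : ℕ} (hj : 2 * j ≤ n) (x : R) :
    x ∈ PP n gr D j ↔ Prim n gr D j (n - 2 * j) x :=
  ⟨fun hx => ⟨hx.1, by omega, hx.2⟩, fun hx => ⟨hx.mem, hx.prim⟩⟩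

/-- The Hodge index form. -/
noncomputable def QQ (n : ℕ) (gr : ℕ → Submodule ℚ R) (deg : R →ₗ[ℚ] ℚ) (D : R) (j : ℕ) :
    LinearMap.BilinForm ℚ (PP n gr D j) :=
  LinearMap.mk₂ ℚ (fun x y => (-1) ^ j * deg ((x : R) * y * D ^ (n - 2 * j)))
    (by intro a b c; simp only [Submodule.coe_add, add_mul, map_add, mul_add])
    (by intro c a b; simp only [Submodule.coe_smul, smul_mul_assoc, map_smul, smul_eq_mul]; ring)
    (by intro a b c; simp only [Submodule.coe_add, mul_add, add_mul, map_add])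
    (by intro c a b
        simp only [Submodule.coe_smul, mul_smul_comm, smul_mul_assoc, map_smul, smul_eq_mul]
        ring)

theorem QQ_apply (j : ℕ) (x y : PP n gr D j) :
    QQ n gr deg D j x y = (-1) ^ j * deg ((x : R) * y * D ^ (n - 2 * j)) := rfl

theorem QQ_symm (j : ℕ) : (QQ n gr deg D j).IsSymm := by
  refine ⟨fun x y => ?_⟩
  rw [QQ_apply, QQ_apply, mul_comm (x : R)]

variable [Module.Finite ℚ R]

/-- An orthogonal basis of the space of primitive elements. -/
theorem exists_basis (j : ℕ) : ∃ v : Basis (Fin (finrank ℚ (PP n gr D j))) ℚ (PP n gr D j),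
    ∀ i k, i ≠ k → QQ n gr deg D j (v i) (v k) = 0 := by
  obtain ⟨v, hv⟩ := LinearMap.BilinForm.exists_orthogonal_basis
    (LinearMap.BilinForm.isSymm_iff.1 (QQ_symm (n := n) (gr := gr) (deg := deg) (D := D) j))
  exact ⟨v, fun i k hik => hv hik⟩

/-- An orthogonal basis of the space of primitive elements. -/
noncomputable def pb (n : ℕ) (gr : ℕ → Submodule ℚ R) (deg : R →ₗ[ℚ] ℚ) (D : R) (j : ℕ) :
    Basis (Fin (finrank ℚ (PP n gr D j))) ℚ (PP n gr D j) :=
  (exists_basis (deg := deg) j).choose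

theorem pb_orth (j : ℕ) (i k : Fin (finrank ℚ (PP n gr D j))) (hik : i ≠ k) :
    QQ n gr deg D j (pb n gr deg D j i) (pb n gr deg D j k) = 0 :=
  (exists_basis (deg := deg) j).choose_spec i k hik

/-- The indices of the basis. -/
abbrev Ix (n : ℕ) (gr : ℕ → Submodule ℚ R) (D : R) : Type :=
  Σ j : Fin (n / 2 + 1), Fin (finrank ℚ (PP n gr D j)) × Fin (n - 2 * j + 1)

/-- The primitive vector. -/
noncomputable def ev (deg : R →ₗ[ℚ] ℚ) (α : Ix n gr D) : R := (pb n gr deg D α.1 α.2.1 : R)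

/-- The vectors of the basis. -/
noncomputable def bv (deg : R →ₗ[ℚ] ℚ) (α : Ix n gr D) : R := D ^ (α.2.2 : ℕ) * ev deg α

omit [Module.Finite ℚ R] in
theorem Ix_le (α : Ix n gr D) : 2 * (α.1 : ℕ) ≤ n := by
  have := α.1.2
  omega

theorem ev_prim (α : Ix n gr D) : Prim n gr D α.1 (n - 2 * α.1) (ev deg α) :=
  (mem_PP (Ix_le α) _).1 (pb n gr deg D α.1 α.2.1).2

/-- The dual index. -/
def dual (α : Ix n gr D) : Ix n gr D := ⟨α.1, α.2.1, ⟨n - 2 * α.1 - α.2.2, by omega⟩⟩

/-- The positive numbers `(-1)^j deg (e * e * D ^ m)`. -/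
noncomputable def cc (deg : R →ₗ[ℚ] ℚ) (α : Ix n gr D) : ℚ :=
  (-1) ^ (α.1 : ℕ) * deg (ev deg α * ev deg α * D ^ (n - 2 * (α.1 : ℕ)))

theorem cc_pos (h : IsLHR n gr deg D) (α : Ix n gr D) : 0 < cc deg α := by
  refine h.pos (ev_prim α) ?_
  intro h0
  refine (pb n gr deg D α.1).ne_zero α.2.1 ?_
  exact Subtype.ext h0

theorem pair_eq (h : IsLHR n gr deg D) (α β : Ix n gr D) :
    deg (bv deg α * bv deg (dual β)) = if α = β then (-1) ^ (α.1 : ℕ) * cc deg α else 0 := by
  obtain ⟨j, i, b⟩ := α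
  obtain ⟨j', i', b'⟩ := β
  by_cases hj : j = j'
  · subst hj
    by_cases hb : b = b'
    · subst hb
      have h1 : bv deg (⟨j, i, b⟩ : Ix n gr D) * bv deg (dual (⟨j, i', b⟩ : Ix n gr D)) =
          (pb n gr deg D j i : R) * (pb n gr deg D j i' : R) * D ^ (n - 2 * (j : ℕ)) := by
        change D ^ (b : ℕ) * (pb n gr deg D j i : R) *
          (D ^ (n - 2 * (j : ℕ) - (b : ℕ)) * (pb n gr deg D j i' : R)) = _
        have h2 : n - 2 * (j : ℕ) = b + (n - 2 * (j : ℕ) - (b : ℕ)) := by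
          have := b.2
          omega
        conv_rhs => rw [h2, pow_add]
        ring
      rw [h1]
      have h3 := QQ_apply (n := n) (gr := gr) (deg := deg) (D := D) j (pb n gr deg D j i)
        (pb n gr deg D j i')
      by_cases hi : i = i'
      · subst hi
        rw [if_pos rfl]
        change _ = (-1) ^ (j : ℕ) * ((-1) ^ (j : ℕ) * deg ((pb n gr deg D j i : R) *
          (pb n gr deg D j i : R) * D ^ (n - 2 * (j : ℕ))))
        rw [← mul_assoc, ← pow_add, Even.neg_one_pow ⟨_, rfl⟩, one_mul]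
      · rw [pb_orth j i i' hi] at h3
        have hne : (⟨j, i, b⟩ : Ix n gr D) ≠ ⟨j, i', b⟩ := by
          intro h4
          have h5 := eq_of_heq (Sigma.mk.inj_iff.1 h4).2
          exact hi (Prod.ext_iff.1 h5).1
        rw [if_neg hne]
        exact (mul_eq_zero.1 h3.symm).resolve_left (pow_ne_zero _ (by norm_num))
    · have hne : (⟨j, i, b⟩ : Ix n gr D) ≠ ⟨j, i', b'⟩ := by
        intro h4
        have h5 := eq_of_heq (Sigma.mk.inj_iff.1 h4).2
        exact hb (Prod.ext_iff.1 h5).2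
      rw [if_neg hne]
      refine h.orth (ev_prim (deg := deg) ⟨j, i, b⟩) (ev_prim (deg := deg) ⟨j, i', b'⟩) ?_
      rintro ⟨-, h1⟩
      change (b : ℕ) + (n - 2 * (j : ℕ) - (b' : ℕ)) = n - 2 * (j : ℕ) at h1
      refine hb (Fin.ext ?_)
      have h2 := b.2
      have h3 := b'.2
      omega
  · have hne : (⟨j, i, b⟩ : Ix n gr D) ≠ ⟨j', i', b'⟩ := by
      intro h4
      exact hj (Sigma.mk.inj_iff.1 h4).1
    rw [if_neg hne]
    refine h.orth (ev_prim (deg := deg) ⟨j, i, b⟩) (ev_prim (deg := deg) ⟨j', i', b'⟩) ?_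
    rintro ⟨h1, -⟩
    exact hj (Fin.ext h1)

theorem bv_linInd (h : IsLHR n gr deg D) : LinearIndependent ℚ (bv (n := n) (gr := gr) (D := D) deg) := by
  classical
  rw [Fintype.linearIndependent_iff]
  intro c hc α
  have h1 := congrArg (fun x => deg (x * bv deg (dual α))) hc
  simp only [zero_mul, map_zero, Finset.sum_mul, smul_mul_assoc, map_sum, map_smul,
    smul_eq_mul] at h1
  rw [Finset.sum_eq_single α] at h1
  · rw [pair_eq h, if_pos rfl] at h1
    refine (mul_eq_zero.1 h1).resolve_right (mul_ne_zero (pow_ne_zero _ (by norm_num)) ?_)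
    exact (cc_pos h α).ne'
  · intro β _ hβ
    rw [pair_eq h, if_neg hβ, mul_zero]
  · intro h2
    exact absurd (Finset.mem_univ α) h2

theorem expand_prim {j : ℕ} {x : R} (hx' : x ∈ PP n gr D j) :
    x = ∑ i, (pb n gr deg D j).repr ⟨x, hx'⟩ i • (pb n gr deg D j i : R) := by
  have h1 := congrArg (fun z : PP n gr D j => (z : R)) ((pb n gr deg D j).sum_repr ⟨x, hx'⟩)
  refine h1.symm.trans ?_
  simp only [Submodule.coe_sum, Submodule.coe_smul]

theorem prim_mem_span (j m b : ℕ) (x : R) (hx : Prim n gr D j m x) (hb : b ≤ m) :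
    D ^ b * x ∈ Submodule.span ℚ (Set.range (bv (n := n) (gr := gr) (D := D) deg)) := by
  have hd := hx.dim
  have hm : n - 2 * j = m := by omega
  have hx' : x ∈ PP n gr D j := (mem_PP (by omega) x).2 (by rw [hm]; exact hx)
  rw [expand_prim (deg := deg) hx', Finset.mul_sum]
  refine Submodule.sum_mem _ fun i _ => ?_
  rw [mul_smul_comm]
  refine Submodule.smul_mem _ _ (Submodule.subset_span ?_)
  exact ⟨⟨⟨j, by omega⟩, i, ⟨b, by change b < n - 2 * j + 1; omega⟩⟩, rfl⟩

theorem span_top (h : IsLHR n gr deg D) :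
    ⊤ ≤ Submodule.span ℚ (Set.range (bv (n := n) (gr := gr) (D := D) deg)) := by
  rw [← h.ring.total]
  refine iSup_le fun r => (h.gr_le r).trans ?_
  unfold SP
  rw [Submodule.span_le]
  rintro _ ⟨j, m, b, x, hx, hb, -, rfl⟩
  exact prim_mem_span j m b x hx hb

/-- The basis. -/
noncomputable def BB (h : IsLHR n gr deg D) : Basis (Ix n gr D) ℚ R :=
  Basis.mk (bv_linInd h) (span_top h)

theorem BB_apply (h : IsLHR n gr deg D) (α : Ix n gr D) : BB h α = bv deg α := by
  unfold BB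
  rw [Basis.mk_apply]

/-- Linear maps that agree on the elements `D ^ b * x` with `x` primitive are equal. -/
theorem ext_prim (h : IsLHR n gr deg D) {M : Type v} [AddCommGroup M] [Module ℚ M] {f g : R →ₗ[ℚ] M}
    (hfg : ∀ j m b x, Prim n gr D j m x → b ≤ m → f (D ^ b * x) = g (D ^ b * x)) : f = g := by
  refine (BB h).ext fun α => ?_
  rw [BB_apply]
  refine hfg _ _ _ _ (ev_prim (deg := deg) α) ?_
  have := α.2.2.2
  omega

/-! ### The operators -/

/-- The operator `Λ`. -/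
noncomputable def Lam (h : IsLHR n gr deg D) : R →ₗ[ℚ] R :=
  (BB h).constr ℚ fun α => (((α.2.2 : ℕ) : ℚ) * (((n - 2 * (α.1 : ℕ) : ℕ) : ℚ) + 1 - ((α.2.2 : ℕ) : ℚ))) •
    (D ^ ((α.2.2 : ℕ) - 1) * ev deg α)

/-- The star operator. -/
noncomputable def Star (h : IsLHR n gr deg D) : R →ₗ[ℚ] R :=
  (BB h).constr ℚ fun α => ((-1) ^ (α.1 : ℕ) * (((α.2.2 : ℕ).factorial : ℚ) /
    ((n - 2 * (α.1 : ℕ) - (α.2.2 : ℕ)).factorial : ℚ))) •
    (D ^ (n - 2 * (α.1 : ℕ) - (α.2.2 : ℕ)) * ev deg α)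

theorem Lam_aux (h : IsLHR n gr deg D) {j m b : ℕ} {x : R} (hx : Prim n gr D j m x) (hb : b ≤ m) :
    Lam h (D ^ b * x) = ((b : ℚ) * ((m : ℚ) + 1 - b)) • (D ^ (b - 1) * x) := by
  have hd := hx.dim
  have hm : n - 2 * j = m := by omega
  have hx' : x ∈ PP n gr D j := (mem_PP (by omega) x).2 (by rw [hm]; exact hx)
  rw [expand_prim (deg := deg) hx', Finset.mul_sum, map_sum, Finset.mul_sum, Finset.smul_sum]
  refine Finset.sum_congr rfl fun i _ => ?_
  rw [mul_smul_comm, map_smul, mul_smul_comm, smul_comm]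
  congr 1
  have h1 := (BB h).constr_basis ℚ (fun α => (((α.2.2 : ℕ) : ℚ) *
    (((n - 2 * (α.1 : ℕ) : ℕ) : ℚ) + 1 - ((α.2.2 : ℕ) : ℚ))) •
    (D ^ ((α.2.2 : ℕ) - 1) * ev deg α)) ⟨⟨j, by omega⟩, i, ⟨b, by change b < n - 2 * j + 1; omega⟩⟩
  rw [BB_apply] at h1
  refine h1.trans ?_
  change ((b : ℚ) * (((n - 2 * j : ℕ) : ℚ) + 1 - (b : ℚ))) • (D ^ (b - 1) * (pb n gr deg D j i : R)) = _
  rw [hm]

theorem Lam_zero (h : IsLHR n gr deg D) {j m : ℕ} {x : R} (hx : Prim n gr D j m x) :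
    Lam h x = 0 := by
  have h1 := Lam_aux h hx (Nat.zero_le m)
  rwa [pow_zero, one_mul, Nat.cast_zero, zero_mul, zero_smul] at h1

theorem Lam_succ (h : IsLHR n gr deg D) {j m : ℕ} (b : ℕ) {x : R} (hx : Prim n gr D j m x) :
    Lam h (D ^ (b + 1) * x) = (((b : ℚ) + 1) * ((m : ℚ) - b)) • (D ^ b * x) := by
  rcases Nat.lt_or_ge b m with hlt | hge
  · have h1 := Lam_aux h hx (show b + 1 ≤ m from hlt)
    rw [h1, Nat.add_sub_cancel]
    congr 1
    push_cast
    ring
  · rw [hx.pow_eq_zero (by omega), map_zero]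
    rcases Nat.eq_or_lt_of_le hge with heq | hgt
    · rw [heq, sub_self, mul_zero, zero_smul]
    · rw [hx.pow_eq_zero hgt, smul_zero]

theorem Star_pow (h : IsLHR n gr deg D) {j b c : ℕ} {x : R} (hx : Prim n gr D j (b + c) x) :
    Star h (D ^ b * x) = ((-1) ^ j * ((b.factorial : ℚ) / (c.factorial : ℚ))) • (D ^ c * x) := by
  have hd := hx.dim
  have hm : n - 2 * j = b + c := by omega
  have hx' : x ∈ PP n gr D j := (mem_PP (by omega) x).2 (by rw [hm]; exact hx)
  rw [expand_prim (deg := deg) hx', Finset.mul_sum, map_sum, Finset.mul_sum, Finset.smul_sum]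
  refine Finset.sum_congr rfl fun i _ => ?_
  rw [mul_smul_comm, map_smul, mul_smul_comm, smul_comm ((-1) ^ j * _ : ℚ)]
  congr 1
  have h1 := (BB h).constr_basis ℚ (fun α => ((-1) ^ (α.1 : ℕ) * (((α.2.2 : ℕ).factorial : ℚ) /
    ((n - 2 * (α.1 : ℕ) - (α.2.2 : ℕ)).factorial : ℚ))) •
    (D ^ (n - 2 * (α.1 : ℕ) - (α.2.2 : ℕ)) * ev deg α))
    ⟨⟨j, by omega⟩, i, ⟨b, by change b < n - 2 * j + 1; omega⟩⟩
  rw [BB_apply] at h1
  refine h1.trans ?_
  change ((-1) ^ j * ((b.factorial : ℚ) / ((n - 2 * j - b).factorial : ℚ))) •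
    (D ^ (n - 2 * j - b) * (pb n gr deg D j i : R)) = _
  rw [show n - 2 * j - b = c by omega]

end Pool.Agent.X268.SR
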