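import Pool.Agent.Y137.HD.Main
import Pool.Agent.X268.SR.Har

/-!
# The standard conjectures and semistable reduction
-/

set_option autoImplicit false
set_option linter.unusedSectionVars false

namespace Pool.Agent.X268.SR

open Pool.Agent.Y137.HD

universe u v w

variable {Z : Type w} [CommRing Z] [Algebra ℚ Z] {A : Type v} [CommRing A] [Algebra ℚ A]
  {R₁ R₂ R₃ : Type u} [CommRing R₁] [Algebra ℚ R₁] [CommRing R₂] [Algebra ℚ R₂] [CommRing R₃]
  [Algebra ℚ R₃] [Module.Finite ℚ R₁] [Module.Finite ℚ R₂] [Module.Finite ℚ R₃] {k : ℕ}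
  {gr : ℕ → Submodule ℚ A} {deg : A →ₗ[ℚ] ℚ} {D : A}
  {gr₁ : ℕ → Submodule ℚ R₁} {deg₁ : R₁ →ₗ[ℚ] ℚ} {D₁ : R₁}
  {gr₂ : ℕ → Submodule ℚ R₂} {deg₂ : R₂ →ₗ[ℚ] ℚ} {D₂ : R₂}
  {gr₃ : ℕ → Submodule ℚ R₃} {deg₃ : R₃ →ₗ[ℚ] ℚ} {D₃ : R₃}
  {ρ₁ : R₁ →ₗ[ℚ] R₂} {ρ₂ : R₂ →ₗ[ℚ] R₃} {γ₁ : R₂ →ₗ[ℚ] R₁} {γ₂ : R₃ →ₗ[ℚ] R₂}
  {grZ : ℕ → Submodule ℚ Z} {DZ : Z} {η : Z →ₐ[ℚ] A} {σ : Z →ₐ[ℚ] R₁}

theorem IsModel.pow_mul_mem {n : ℕ}
    (hM : IsModel n gr deg D gr₁ deg₁ D₁ ρ₁ ρ₂ γ₁ grZ DZ η σ) (b : ℕ) {j : ℕ} {x : Z}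
    (hx : x ∈ grZ j) : DZ ^ b * x ∈ grZ (j + b) := by
  induction b with
  | zero => simpa using hx
  | succ b ih =>
    rw [pow_succ', mul_assoc, show j + (b + 1) = 1 + (j + b) by omega]
    exact hM.mul_mem hM.divisor_mem ih

/-- **The Hodge standard conjecture and semistable reduction.** -/
theorem hodge_of_model (h₁ : IsLHR (k + 2) gr₁ deg₁ D₁) (h₂ : IsLHR (k + 1) gr₂ deg₂ D₂)
    (h₃ : IsLHR k gr₃ deg₃ D₃)
    (hS : IsStrata gr₁ deg₁ D₁ gr₂ deg₂ D₂ gr₃ deg₃ D₃ ρ₁ ρ₂ γ₁ γ₂)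
    (hM : IsModel (k + 2) gr deg D gr₁ deg₁ D₁ ρ₁ ρ₂ γ₁ grZ DZ η σ) {j m : ℕ}
    (hjm : 2 * j + m = k + 2) {a : A} (ha : a ∈ gr j) (hp : D ^ (m + 1) * a = 0) (h0 : a ≠ 0) :
    0 < (-1) ^ j * deg (a * a * D ^ m) := by
  obtain ⟨z, hz, rfl⟩ := hM.surjective j a ha
  have hprim : ∀ y, ρ₁ y = 0 → deg₁ (D₁ ^ (m + 1) * σ z * y) = 0 := by
    intro y hy
    have h4 := hM.orthogonal _ _ (hM.pow_mul_mem (m + 1) hz)
      (by rw [map_mul η, map_pow η, hM.divisor_generic, hp]) y hy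
    rwa [map_mul σ, map_pow σ, hM.divisor_special] at h4
  have hmem : z * z * DZ ^ m ∈ grZ (k + 2) := by
    have h5 := hM.pow_mul_mem m (hM.mul_mem hz hz)
    rwa [mul_comm, show j + j + m = k + 2 by omega] at h5
  have hdeg : deg (η z * η z * D ^ m) = deg₁ (σ z * σ z * D₁ ^ m) := by
    have h5 := hM.degree _ hmem
    rwa [map_mul η, map_mul η, map_pow η, map_mul σ, map_mul σ, map_pow σ, hM.divisor_generic,
      hM.divisor_special] at h5
  rw [hdeg]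
  rcases closed_pos h₁ h₂ h₃ hS hjm (hM.special_mem j z hz) (hM.closed z) hprim with ⟨u, hu, he⟩ | h
  · exact absurd (hM.exact j z hz u hu he) h0
  · exact h

/-- Cycles of dimension zero. -/
theorem lefschetz_zero {n : ℕ} (hR : IsCycleRing n gr deg D) : ∀ z ∈ gr n, ∃ z' ∈ gr 0,
    D ^ n * z' = z := by
  intro z hz
  refine ⟨(deg z / deg (D ^ n)) • 1, Submodule.smul_mem _ _ hR.one_mem, ?_⟩
  have h1 : z - (deg z / deg (D ^ n)) • D ^ n = 0 := by
    refine hR.degree _ (Submodule.sub_mem _ hz (Submodule.smul_mem _ _ (hR.pow_mem n))) ?_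
    rw [map_sub, map_smul, smul_eq_mul, div_mul_cancel₀ _ hR.ample.ne', sub_self]
  rw [mul_smul_comm, mul_one]
  exact (sub_eq_zero.1 h1).symm

/-- The equality of numerical and homological equivalence in codimension `i` follows from the Lefschetz
condition in the smaller codimensions. -/
theorem numEqHom_codim {n : ℕ} (hR : IsCycleRing n gr deg D)
    (hpos : ∀ j m, 2 * j + m = n → ∀ z ∈ gr j, D ^ (m + 1) * z = 0 → z * (z * D ^ m) = 0 → z = 0)
    {i : ℕ} (hi : i ≤ n) (hA : ∀ j, 0 < j → j < i → j + i ≤ n → ∀ z ∈ gr (n - j), ∃ z' ∈ gr j,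
      D ^ (n - 2 * j) * z' = z) : ∀ z ∈ gr i, (∀ w ∈ gr (n - i), deg (z * w) = 0) → z = 0 := by
  have hA' : ∀ j, j < i → j + i ≤ n → ∀ z ∈ gr (n - j), ∃ z' ∈ gr j,
      D ^ (n - 2 * j) * z' = z := by
    intro j hj hji
    rcases Nat.eq_zero_or_pos j with rfl | h
    · simpa using lefschetz_zero hR
    · exact hA j h hj hji
  have hlow : ∀ j, 2 * j ≤ n → j ≤ i → j + i ≤ n → ∀ z ∈ gr j, (∀ w ∈ gr (n - j), z * w = 0) →
      z = 0 := by
    intro j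
    induction j with
    | zero =>
      intro _ _ _ z hz h
      refine hpos 0 n (by omega) z hz ?_ (h _ ?_)
      · exact hR.bound (by omega) (hR.pow_mul_mem (n + 1) hz)
      · have := hR.mul_mem hz (hR.pow_mem n)
        rwa [zero_add] at this
    | succ j ih =>
      intro hj hji hjn z hz h
      obtain ⟨z', hz', he⟩ := hA' j (by omega) (by omega) (D ^ (n - 2 * (j + 1) + 1) * z) (by
        have := hR.pow_mul_mem (n - 2 * (j + 1) + 1) hz
        rwa [show n - 2 * (j + 1) + 1 + (j + 1) = n - j by omega] at this)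
      have h0 : z' = 0 := by
        refine ih (by omega) (by omega) (by omega) z' hz' fun w hw => ?_
        obtain ⟨w', hw', rfl⟩ := hA' j (by omega) (by omega) w hw
        have h1 : z' * (D ^ (n - 2 * j) * w') = z * (D ^ (n - 2 * (j + 1) + 1) * w') := by
          rw [mul_left_comm, ← mul_assoc, he]
          ring
        rw [h1]
        refine h _ ?_
        have := hR.pow_mul_mem (n - 2 * (j + 1) + 1) hw'
        rwa [show n - 2 * (j + 1) + 1 + j = n - (j + 1) by omega] at this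
      rw [h0, mul_zero] at he
      refine hpos (j + 1) (n - 2 * (j + 1)) (by omega) z hz he.symm (h _ ?_)
      have := hR.mul_mem hz (hR.pow_mem (n - 2 * (j + 1)))
      rwa [show j + 1 + (n - 2 * (j + 1)) = n - (j + 1) by omega] at this
  intro z hz h
  have h' : ∀ w ∈ gr (n - i), z * w = 0 := by
    intro w hw
    refine hR.degree _ ?_ (h w hw)
    have := hR.mul_mem hz hw
    rwa [show i + (n - i) = n by omega] at this
  by_cases hi2 : 2 * i ≤ n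
  · exact hlow i hi2 le_rfl (by omega) z hz h'
  · obtain ⟨z', hz', he⟩ := hA' (n - i) (by omega) (by omega) z
      (by rwa [show n - (n - i) = i by omega])
    have h0 : z' = 0 := by
      refine hlow (n - i) (by omega) (by omega) (by omega) z' hz' fun w hw => ?_
      obtain ⟨w', hw', rfl⟩ := hA' (n - i) (by omega) (by omega) w hw
      rw [mul_left_comm, ← mul_assoc, he]
      exact h' w' hw'
    rw [← he, h0, mul_zero]

/-- **Numerical and homological equivalence and semistable reduction.** -/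
theorem numEqHom_of_model (hX : IsCycleRing (k + 2) gr deg D)
    (h₁ : IsLHR (k + 2) gr₁ deg₁ D₁) (h₂ : IsLHR (k + 1) gr₂ deg₂ D₂)
    (h₃ : IsLHR k gr₃ deg₃ D₃)
    (hS : IsStrata gr₁ deg₁ D₁ gr₂ deg₂ D₂ gr₃ deg₃ D₃ ρ₁ ρ₂ γ₁ γ₂)
    (hM : IsModel (k + 2) gr deg D gr₁ deg₁ D₁ ρ₁ ρ₂ γ₁ grZ DZ η σ) {i : ℕ} (hi : i ≤ k + 2)
    (hA : ∀ j, 0 < j → j < i → j + i ≤ k + 2 → ∀ z ∈ gr (k + 2 - j), ∃ z' ∈ gr j,
      D ^ (k + 2 - 2 * j) * z' = z) :
    ∀ z ∈ gr i, (∀ w ∈ gr (k + 2 - i), deg (z * w) = 0) → z = 0 := by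
  refine numEqHom_codim hX (fun j m hjm z hz hp h0 => ?_) hi hA
  by_contra hne
  have h4 := hodge_of_model h₁ h₂ h₃ hS hM hjm hz hp hne
  rw [mul_assoc, h0, map_zero, mul_zero] at h4
  exact lt_irrefl _ h4

end Pool.Agent.X268.SR
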