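import Pool.Agent.X268.SR.Lef

/-!
# Identities for the operators `Λ` and `*`, the inner product, and the operators of degree one
-/

set_option autoImplicit false

namespace Pool.Agent.X268.SR

open Module

universe u v

section one

variable {R : Type u} [CommRing R] [Algebra ℚ R] [Module.Finite ℚ R] {n : ℕ}
  {gr : ℕ → Submodule ℚ R} {deg : R →ₗ[ℚ] ℚ} {D : R}

theorem Star_Star (h : IsLHR n gr deg D) (y : R) : Star h (Star h y) = y := by
  have h1 : Star h ∘ₗ Star h = LinearMap.id := by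
    refine ext_prim h fun j m b x hx hb => ?_
    obtain ⟨c, rfl⟩ := Nat.exists_eq_add_of_le hb
    rw [LinearMap.comp_apply, LinearMap.id_apply, Star_pow h hx, map_smul,
      Star_pow h (b := c) (c := b) (by rwa [add_comm c b]), smul_smul]
    have h2 : (-1 : ℚ) ^ j * (-1) ^ j = 1 := by rw [← pow_add, Even.neg_one_pow ⟨_, rfl⟩]
    have h3 : (b.factorial : ℚ) ≠ 0 := Nat.cast_ne_zero.2 b.factorial_ne_zero
    have h4 : (c.factorial : ℚ) ≠ 0 := Nat.cast_ne_zero.2 c.factorial_ne_zero
    have h5 : (-1 : ℚ) ^ j * ((b.factorial : ℚ) / (c.factorial : ℚ)) *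
        ((-1) ^ j * ((c.factorial : ℚ) / (b.factorial : ℚ))) = 1 := by
      rw [show (-1 : ℚ) ^ j * ((b.factorial : ℚ) / (c.factorial : ℚ)) *
        ((-1) ^ j * ((c.factorial : ℚ) / (b.factorial : ℚ))) = ((-1 : ℚ) ^ j * (-1) ^ j) *
          (((b.factorial : ℚ) / (c.factorial : ℚ)) * ((c.factorial : ℚ) / (b.factorial : ℚ))) by ring,
        h2, one_mul, div_mul_div_cancel₀ h4, div_self h3]
    rw [h5, one_smul]
  exact LinearMap.congr_fun h1 y

/-- Elements of `gr r` are spanned by elements `D ^ b * x`. -/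
theorem gr_induction (h : IsLHR n gr deg D) {r : ℕ} {P : R → Prop} (h0 : P 0)
    (hadd : ∀ a b, P a → P b → P (a + b)) (hsmul : ∀ (c : ℚ) a, P a → P (c • a))
    (hp : ∀ j b c x, Prim n gr D j (b + c) x → j + b = r → P (D ^ b * x)) {y : R}
    (hy : y ∈ gr r) : P y := by
  have h1 := h.gr_le r hy
  clear hy
  unfold SP at h1
  induction h1 using Submodule.span_induction with
  | mem y hy =>
    obtain ⟨j, m, b, x, hx, hb, hr, rfl⟩ := hy
    obtain ⟨c, rfl⟩ := Nat.exists_eq_add_of_le hb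
    exact hp j b c x hx hr
  | zero => exact h0
  | add a b _ _ ha hb => exact hadd _ _ ha hb
  | smul c a _ ha => exact hsmul _ _ ha

/-- The commutator of `D` and `Λ`. -/
theorem comm_Lam (h : IsLHR n gr deg D) {r : ℕ} {y : R} (hy : y ∈ gr r) :
    D * Lam h y - Lam h (D * y) = (2 * (r : ℚ) - n) • y := by
  refine gr_induction h (P := fun y => D * Lam h y - Lam h (D * y) = (2 * (r : ℚ) - n) • y)
    ?_ ?_ ?_ ?_ hy
  · simp
  · intro a b ha hb
    rw [map_add, mul_add, mul_add, map_add, smul_add, ← ha, ← hb]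
    ring
  · intro c a ha
    rw [map_smul, mul_smul_comm, mul_smul_comm, map_smul, ← smul_sub, ha, smul_comm]
  · intro j b c x hx hr
    have hd := hx.dim
    have h2 : D * (D ^ b * x) = D ^ (b + 1) * x := by ring
    rw [h2, Lam_succ h b hx]
    have hr' : (r : ℚ) = j + b := by rw [← hr]; push_cast; ring
    have hn : (n : ℚ) = 2 * j + (b + c) := by rw [← hd]; push_cast; ring
    rcases b with _ | b
    · rw [pow_zero, one_mul, Lam_zero h hx, mul_zero, zero_sub, ← neg_smul, hr', hn]
      congr 1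
      push_cast
      ring
    · have h3 : D * ((((b : ℚ) + 1) * (((b + 1 + c : ℕ) : ℚ) - b)) • (D ^ b * x)) =
          (((b : ℚ) + 1) * (((b + 1 + c : ℕ) : ℚ) - b)) • (D ^ (b + 1) * x) := by
        rw [mul_smul_comm]
        congr 1
        ring
      rw [Lam_succ h b hx, h3, ← sub_smul, hr', hn]
      congr 1
      push_cast
      ring

theorem Lam_mem (h : IsLHR n gr deg D) {r : ℕ} {y : R} (hy : y ∈ gr (r + 1)) : Lam h y ∈ gr r := by
  refine gr_induction h (P := fun y => Lam h y ∈ gr r) ?_ ?_ ?_ ?_ hy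
  · rw [map_zero]
    exact Submodule.zero_mem _
  · intro a b ha hb
    rw [map_add]
    exact Submodule.add_mem _ ha hb
  · intro c a ha
    rw [map_smul]
    exact Submodule.smul_mem _ _ ha
  · intro j b c x hx hr
    rcases b with _ | b
    · rw [pow_zero, one_mul, Lam_zero h hx]
      exact Submodule.zero_mem _
    · rw [Lam_succ h b hx]
      refine Submodule.smul_mem _ _ ?_
      have := h.ring.pow_mul_mem b hx.mem
      rwa [show j + b = r by omega] at this

theorem Lam_gr_zero (h : IsLHR n gr deg D) {y : R} (hy : y ∈ gr 0) : Lam h y = 0 := by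
  refine gr_induction h (P := fun y => Lam h y = 0) ?_ ?_ ?_ ?_ hy
  · rw [map_zero]
  · intro a b ha hb
    rw [map_add, ha, hb, add_zero]
  · intro c a ha
    rw [map_smul, ha, smul_zero]
  · intro j b c x hx hr
    obtain rfl : b = 0 := by omega
    rw [pow_zero, one_mul, Lam_zero h hx]

/-! ### The inner product -/

/-- The inner product. -/
noncomputable def ip (h : IsLHR n gr deg D) (x y : R) : ℚ := deg (x * Star h y)

theorem ip_add_left (h : IsLHR n gr deg D) (x y z : R) : ip h (x + y) z = ip h x z + ip h y z := by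
  unfold ip
  rw [add_mul, map_add]

theorem ip_add_right (h : IsLHR n gr deg D) (x y z : R) : ip h x (y + z) = ip h x y + ip h x z := by
  unfold ip
  rw [map_add, mul_add, map_add]

theorem ip_sum_smul (h : IsLHR n gr deg D) (a b : Ix n gr D → ℚ) :
    ip h (∑ α, a α • bv deg α) (∑ β, b β • bv deg β) =
      ∑ α, ∑ β, a α * b β * ip h (bv deg α) (bv deg β) := by
  unfold ip
  rw [Finset.sum_mul, map_sum]
  refine Finset.sum_congr rfl fun α _ => ?_
  rw [map_sum, Finset.mul_sum, map_sum]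
  refine Finset.sum_congr rfl fun β _ => ?_
  rw [map_smul, smul_mul_assoc, mul_smul_comm, map_smul, map_smul, smul_eq_mul, smul_eq_mul,
    ← mul_assoc]

/-- The norms of the vectors of the basis. -/
noncomputable def nn (h : IsLHR n gr deg D) (α : Ix n gr D) : ℚ :=
  (((α.2.2 : ℕ).factorial : ℚ) / ((n - 2 * (α.1 : ℕ) - (α.2.2 : ℕ)).factorial : ℚ)) * cc deg α

theorem nn_pos (h : IsLHR n gr deg D) (α : Ix n gr D) : 0 < nn h α := by
  unfold nn
  refine mul_pos (div_pos ?_ ?_) (cc_pos h α)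
  · exact_mod_cast Nat.factorial_pos _
  · exact_mod_cast Nat.factorial_pos _

theorem ip_bv (h : IsLHR n gr deg D) (α β : Ix n gr D) :
    ip h (bv deg α) (bv deg β) = if α = β then nn h α else 0 := by
  have h1 : Star h (bv deg β) = ((-1) ^ (β.1 : ℕ) * (((β.2.2 : ℕ).factorial : ℚ) /
      ((n - 2 * (β.1 : ℕ) - (β.2.2 : ℕ)).factorial : ℚ))) • bv deg (dual β) := by
    have h2 : n - 2 * (β.1 : ℕ) = β.2.2 + (n - 2 * (β.1 : ℕ) - (β.2.2 : ℕ)) := by
      have := β.2.2.2
      omega
    have h3 : Prim n gr D β.1 (β.2.2 + (n - 2 * (β.1 : ℕ) - (β.2.2 : ℕ))) (ev deg β) := by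
      rw [← h2]
      exact ev_prim β
    exact Star_pow h h3
  unfold ip
  rw [h1, mul_smul_comm, map_smul, pair_eq h, smul_eq_mul]
  by_cases hαβ : α = β
  · subst hαβ
    rw [if_pos rfl, if_pos rfl]
    unfold nn
    have h2 : (-1 : ℚ) ^ (α.1 : ℕ) * (-1) ^ (α.1 : ℕ) = 1 := by
      rw [← pow_add, Even.neg_one_pow ⟨_, rfl⟩]
    calc _ = ((-1 : ℚ) ^ (α.1 : ℕ) * (-1) ^ (α.1 : ℕ)) * ((((α.2.2 : ℕ).factorial : ℚ) /
      ((n - 2 * (α.1 : ℕ) - (α.2.2 : ℕ)).factorial : ℚ)) * cc deg α) := by ring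
      _ = _ := by rw [h2, one_mul]
  · rw [if_neg hαβ, if_neg hαβ, mul_zero]

theorem expand (h : IsLHR n gr deg D) (x : R) : x = ∑ α, (BB h).repr x α • bv deg α := by
  have h1 := (BB h).sum_repr x
  refine h1.symm.trans (Finset.sum_congr rfl fun α _ => ?_)
  rw [BB_apply]

theorem ip_eq (h : IsLHR n gr deg D) (x y : R) :
    ip h x y = ∑ α, (BB h).repr x α * (BB h).repr y α * nn h α := by
  conv_lhs => rw [expand h x, expand h y]
  rw [ip_sum_smul]
  refine Finset.sum_congr rfl fun α _ => ?_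
  rw [Finset.sum_eq_single α]
  · rw [ip_bv, if_pos rfl]
  · intro β _ hβ
    rw [ip_bv, if_neg (Ne.symm hβ), mul_zero]
  · intro h2
    exact absurd (Finset.mem_univ α) h2

theorem ip_comm (h : IsLHR n gr deg D) (x y : R) : ip h x y = ip h y x := by
  rw [ip_eq, ip_eq]
  refine Finset.sum_congr rfl fun α _ => ?_
  ring

theorem ip_nonneg (h : IsLHR n gr deg D) (x : R) : 0 ≤ ip h x x := by
  rw [ip_eq]
  exact Finset.sum_nonneg fun α _ => mul_nonneg (mul_self_nonneg _) (nn_pos h α).le

theorem ip_eq_zero (h : IsLHR n gr deg D) {x : R} (h0 : ip h x x = 0) : x = 0 := by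
  rw [ip_eq, Finset.sum_eq_zero_iff_of_nonneg
    fun α _ => mul_nonneg (mul_self_nonneg _) (nn_pos h α).le] at h0
  rw [expand h x]
  refine Finset.sum_eq_zero fun α hα => ?_
  have h1 := (mul_eq_zero.1 (h0 α hα)).resolve_right (nn_pos h α).ne'
  rw [mul_self_eq_zero.1 h1, zero_smul]

end one

/-! ### Operators of degree one -/

section two

variable {R R' : Type u} [CommRing R] [Algebra ℚ R] [Module.Finite ℚ R] [CommRing R'] [Algebra ℚ R']
  [Module.Finite ℚ R'] {n n' : ℕ} {gr : ℕ → Submodule ℚ R} {gr' : ℕ → Submodule ℚ R'}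
  {deg : R →ₗ[ℚ] ℚ} {deg' : R' →ₗ[ℚ] ℚ} {D : R} {D' : R'}

/-- Star and an operator of degree one. -/
theorem Star_op (h : IsLHR n gr deg D) (h' : IsLHR n' gr' deg' D') (s : ℕ) (hn : n' + 1 = n + 2 * s)
    (T : R →ₗ[ℚ] R') (hT : ∀ r, ∀ x ∈ gr r, T x ∈ gr' (r + s)) (hD : ∀ x, T (D * x) = D' * T x)
    (y : R) : Star h' (T y) = (-(-1) ^ s : ℚ) • (Lam h' (T (Star h y)) - T (Lam h (Star h y))) := by
  have hDp : ∀ b x, T (D ^ b * x) = D' ^ b * T x := by
    intro b x
    induction b with
    | zero => simp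
    | succ b ih => rw [pow_succ', mul_assoc, hD, ih, pow_succ', mul_assoc]
  have h1 : Star h' ∘ₗ T = (-(-1) ^ s : ℚ) • (Lam h' ∘ₗ T ∘ₗ Star h - T ∘ₗ Lam h ∘ₗ Star h) := by
    refine ext_prim h fun j m b x hx hb => ?_
    obtain ⟨c, rfl⟩ := Nat.exists_eq_add_of_le hb
    have hd := hx.dim
    obtain ⟨y0, y1, hy, hy0, hy0', hy1⟩ := h'.decomp (r := j + s) (m := b + c) (by omega)
      (hT j x hx.mem) (by rw [← hDp, hx.prim, map_zero])
    have e1 : Star h' (D' ^ b * y0) = ((-1) ^ (j + s) * ((b.factorial : ℚ) * c / c.factorial)) •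
        (D' ^ (c - 1) * y0) := by
      rcases c with _ | c
      · rw [Nat.cast_zero, mul_zero, zero_div, mul_zero, zero_smul, show D' ^ b * y0 = 0 from hy0',
          map_zero]
      · rw [Star_pow h' (b := b) (c := c) (j := j + s) ⟨hy0, by omega, hy0'⟩, Nat.add_sub_cancel]
        congr 1
        rw [Nat.factorial_succ]
        push_cast
        have h4 : (c.factorial : ℚ) ≠ 0 := Nat.cast_ne_zero.2 c.factorial_ne_zero
        have h5 : ((c : ℚ) + 1) ≠ 0 := by positivity
        field_simp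
    have e2 : Star h' (D' ^ (b + 1) * y1) =
        (-((-1) ^ (j + s) * (((b + 1) * b.factorial : ℚ) / c.factorial))) • (D' ^ c * y1) := by
      rcases hy1 with ⟨-, rfl⟩ | ⟨r', hr', hp⟩
      · simp
      · rw [Star_pow h' (b := b + 1) (c := c) (j := r')
          (by rwa [show b + 1 + c = b + c + 1 by omega]), hr', Nat.factorial_succ]
        congr 1
        push_cast
        rw [pow_succ]
        ring
    have e3 : Lam h' (D' ^ c * y0) = ((c : ℚ) * b) • (D' ^ (c - 1) * y0) := by
      rcases c with _ | c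
      · rw [Nat.cast_zero, zero_mul, zero_smul, pow_zero, one_mul]
        rcases b with _ | b
        · have : y0 = 0 := by simpa using hy0'
          rw [this, map_zero]
        · exact Lam_zero h' (j := j + s) (m := b) ⟨hy0, by omega, hy0'⟩
      · rw [Lam_succ h' (j := j + s) (m := b + c) c ⟨hy0, by omega, hy0'⟩, Nat.add_sub_cancel]
        congr 1
        push_cast
        ring
    have e4 : Lam h' (D' ^ (c + 1) * y1) = (((c : ℚ) + 1) * (b + 1)) • (D' ^ c * y1) := by
      rcases hy1 with ⟨-, rfl⟩ | ⟨r', hr', hp⟩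
      · simp
      · rw [Lam_succ h' c hp]
        congr 1
        push_cast
        ring
    have e5 : T (Lam h (D ^ c * x)) = ((c : ℚ) * (b + 1)) • (D' ^ (c - 1) * y0) +
        ((c : ℚ) * (b + 1)) • (D' ^ c * y1) := by
      rcases c with _ | c
      · rw [Nat.cast_zero, zero_mul, zero_smul, zero_smul, pow_zero, one_mul, Lam_zero h hx,
          map_zero, add_zero]
      · rw [Lam_succ h c hx, map_smul, hDp, hy, ← smul_add, Nat.add_sub_cancel]
        congr 1
        · push_cast
          ring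
        · ring
    have e6 : T (D ^ c * x) = D' ^ c * y0 + D' ^ (c + 1) * y1 := by
      rw [hDp, hy]
      ring
    have e7 : T (D ^ b * x) = D' ^ b * y0 + D' ^ (b + 1) * y1 := by
      rw [hDp, hy]
      ring
    rw [LinearMap.comp_apply, LinearMap.smul_apply, LinearMap.sub_apply, LinearMap.comp_apply,
      LinearMap.comp_apply, LinearMap.comp_apply, LinearMap.comp_apply, Star_pow h hx, map_smul,
      map_smul, map_smul, map_smul, e5, e6, e7, map_add, map_add, e1, e2, e3, e4, ← smul_sub,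
      smul_smul]
    have h6 : (((c : ℚ) * b) • (D' ^ (c - 1) * y0) + (((c : ℚ) + 1) * (b + 1)) • (D' ^ c * y1) -
        (((c : ℚ) * (b + 1)) • (D' ^ (c - 1) * y0) + ((c : ℚ) * (b + 1)) • (D' ^ c * y1))) =
        (-(c : ℚ)) • (D' ^ (c - 1) * y0) + ((b : ℚ) + 1) • (D' ^ c * y1) := by
      rw [add_sub_add_comm, ← sub_smul, ← sub_smul]
      congr 2 <;> ring
    rw [h6, smul_add, smul_smul, smul_smul]
    congr 1
    · congr 1
      rw [pow_add]
      ring
    · congr 1
      rw [pow_add]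
      ring
  exact LinearMap.congr_fun h1 y

end two

end Pool.Agent.X268.SR
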