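import Mathlib

/-!
# Rings of algebraic cycles of the strata of a semistable degeneration
-/

set_option autoImplicit false

namespace Pool.Agent.X268.SR

universe u v w

/-- The ring `R` (of algebraic cycles modulo homological equivalence on a smooth projective scheme `Y` of
pure dimension `n`, not necessarily connected) is graded, with a degree map and a divisor class `D`. -/
structure IsGradedRing {R : Type u} [CommRing R] [Algebra ℚ R] (n : ℕ) (gr : ℕ → Submodule ℚ R)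
    (deg : R →ₗ[ℚ] ℚ) (D : R) : Prop where
  one_mem : 1 ∈ gr 0
  mul_mem : ∀ {i j : ℕ} {a b : R}, a ∈ gr i → b ∈ gr j → a * b ∈ gr (i + j)
  bound : ∀ {i : ℕ} {a : R}, n < i → a ∈ gr i → a = 0
  total : ⨆ i, gr i = ⊤
  degree : ∀ i, i ≠ n → ∀ a ∈ gr i, deg a = 0
  divisor : D ∈ gr 1

/-- The Lefschetz condition: for `2 j ≤ n` multiplication with `D ^ (n - 2 j)` maps the classes of
codimension `j` onto those of codimension `n - j`. -/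
def IsLefschetz {R : Type u} [CommRing R] [Algebra ℚ R] (n : ℕ) (gr : ℕ → Submodule ℚ R) (D : R) :
    Prop :=
  ∀ j, 2 * j ≤ n → ∀ z ∈ gr (n - j), ∃ z' ∈ gr j, D ^ (n - 2 * j) * z' = z

/-- The Hodge index condition. -/
def IsHodgeIndex {R : Type u} [CommRing R] [Algebra ℚ R] (n : ℕ) (gr : ℕ → Submodule ℚ R)
    (deg : R →ₗ[ℚ] ℚ) (D : R) : Prop :=
  ∀ j, 2 * j ≤ n → ∀ z ∈ gr j, D ^ (n - 2 * j + 1) * z = 0 → z ≠ 0 →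
    0 < (-1) ^ j * deg (z * z * D ^ (n - 2 * j))

/-- All the conditions. -/
structure IsLHR {R : Type u} [CommRing R] [Algebra ℚ R] (n : ℕ) (gr : ℕ → Submodule ℚ R)
    (deg : R →ₗ[ℚ] ℚ) (D : R) : Prop where
  ring : IsGradedRing n gr deg D
  lef : IsLefschetz n gr D
  hodge : IsHodgeIndex n gr deg D

/-- Restriction maps `ρ` and Gysin maps `γ` (alternating sums) between the rings of algebraic cycles of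
the simple, double and triple strata of a strictly semistable degeneration. -/
structure IsStrata {R₁ R₂ R₃ : Type u} [CommRing R₁] [Algebra ℚ R₁] [CommRing R₂] [Algebra ℚ R₂]
    [CommRing R₃] [Algebra ℚ R₃] (gr₁ : ℕ → Submodule ℚ R₁) (deg₁ : R₁ →ₗ[ℚ] ℚ) (D₁ : R₁)
    (gr₂ : ℕ → Submodule ℚ R₂) (deg₂ : R₂ →ₗ[ℚ] ℚ) (D₂ : R₂)
    (gr₃ : ℕ → Submodule ℚ R₃) (deg₃ : R₃ →ₗ[ℚ] ℚ) (D₃ : R₃)
    (ρ₁ : R₁ →ₗ[ℚ] R₂) (ρ₂ : R₂ →ₗ[ℚ] R₃) (γ₁ : R₂ →ₗ[ℚ] R₁) (γ₂ : R₃ →ₗ[ℚ] R₂) : Prop where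
  restrict_mem₁ : ∀ i, ∀ x ∈ gr₁ i, ρ₁ x ∈ gr₂ i
  restrict_mem₂ : ∀ i, ∀ x ∈ gr₂ i, ρ₂ x ∈ gr₃ i
  gysin_mem₁ : ∀ i, ∀ x ∈ gr₂ i, γ₁ x ∈ gr₁ (i + 1)
  gysin_mem₂ : ∀ i, ∀ x ∈ gr₃ i, γ₂ x ∈ gr₂ (i + 1)
  restrict_mul₁ : ∀ x, ρ₁ (D₁ * x) = D₂ * ρ₁ x
  restrict_mul₂ : ∀ x, ρ₂ (D₂ * x) = D₃ * ρ₂ x
  gysin_mul₁ : ∀ x, γ₁ (D₂ * x) = D₁ * γ₁ x
  gysin_mul₂ : ∀ x, γ₂ (D₃ * x) = D₂ * γ₂ x
  adjoint₁ : ∀ x y, deg₁ (x * γ₁ y) = deg₂ (ρ₁ x * y)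
  adjoint₂ : ∀ x y, deg₂ (x * γ₂ y) = deg₃ (ρ₂ x * y)
  restrict_restrict : ∀ x, ρ₂ (ρ₁ x) = 0
  restrict_gysin : ∀ x, ρ₁ (γ₁ x) + γ₂ (ρ₂ x) = 0

/-- The ring `Z` of algebraic cycles on a projective strictly semistable model of `X` (regular, of relative
dimension `n`), with the restriction `η` to the generic fibre and the restriction `σ` to the simple
strata of the special fibre. -/
structure IsModel {Z : Type w} [CommRing Z] [Algebra ℚ Z] {A : Type v} [CommRing A] [Algebra ℚ A]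
    {R₁ R₂ R₃ : Type u} [CommRing R₁] [Algebra ℚ R₁] [CommRing R₂] [Algebra ℚ R₂] [CommRing R₃]
    [Algebra ℚ R₃] (n : ℕ) (gr : ℕ → Submodule ℚ A) (deg : A →ₗ[ℚ] ℚ) (D : A)
    (gr₁ : ℕ → Submodule ℚ R₁) (deg₁ : R₁ →ₗ[ℚ] ℚ) (D₁ : R₁) (ρ₁ : R₁ →ₗ[ℚ] R₂) (ρ₂ : R₂ →ₗ[ℚ] R₃)
    (γ₁ : R₂ →ₗ[ℚ] R₁) (grZ : ℕ → Submodule ℚ Z) (DZ : Z) (η : Z →ₐ[ℚ] A) (σ : Z →ₐ[ℚ] R₁) :
    Prop where
  mul_mem : ∀ {i j : ℕ} {a b : Z}, a ∈ grZ i → b ∈ grZ j → a * b ∈ grZ (i + j)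
  special_mem : ∀ i, ∀ z ∈ grZ i, σ z ∈ gr₁ i
  surjective : ∀ i, ∀ a ∈ gr i, ∃ z ∈ grZ i, η z = a
  divisor_mem : DZ ∈ grZ 1
  divisor_generic : η DZ = D
  divisor_special : σ DZ = D₁
  closed : ∀ z, ρ₁ (σ z) = 0
  degree : ∀ z ∈ grZ n, deg (η z) = deg₁ (σ z)
  orthogonal : ∀ i, ∀ z ∈ grZ i, η z = 0 → ∀ y, ρ₁ y = 0 → deg₁ (σ z * y) = 0
  exact : ∀ i, ∀ z ∈ grZ i, ∀ u, ρ₂ u = 0 → σ z = γ₁ u → η z = 0

end Pool.Agent.X268.SR
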